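import Pool.Agent.X39.Near.Pow
import Pool.Agent.X39.Near.DepInt

/-!
# The numbers `e ^ (π ^ k t)`, and `α ^ (i π)`, for ALL algebraic `t`, `α` close to any number outside a set of dimension zero

The question: is `e ^ (π ^ 2)` transcendental? This number is the value at `t = 1` of `e ^ (π ^ 2 t)`, and the value
`α ^ (- i π)` at `α = -1`. Let `Γ` be a countable set of complex numbers, for instance the field generated by `i` and `π`. We
prove, outside ONE set `E` of complex numbers of Hausdorff dimension `0` (for all exponents, number fields, degrees and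
scales): (1) for all `γ_1, …, γ_m ∈ Γ` which are linearly independent over `ℚ` (for instance `1, π, π ^ 2`) the numbers
`e ^ (γ_1 t)`, …, `e ^ (γ_m t)`, for ALL algebraic numbers `t` of a number field close to `x ∉ E`, satisfy no relation of
bounded degree with coefficients of polynomial size, even approximately; (2) for all `γ_1, …, γ_m ∈ Γ` such that
`1, γ_1, …, γ_m` are linearly independent over `ℚ` (for instance `i π`, `π`) the same holds for the numbers `log α`,
`α ^ γ_1`, …, `α ^ γ_m`, for ALL algebraic numbers `α` close to `x ∉ E`, `x ≠ 0`. The coefficients may be polynomials in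
arbitrary constants `ξ_1, …, ξ_g` fixed in advance (for instance `π`). In particular nonzero integral polynomials of degree
at most `d` and of height at most `T ^ A` have values of absolute value greater than `T ^ (-B)` at these numbers.

Proof: exponentials of linearly independent multiples of `z` are algebraically independent functions, also over `ℂ(z)`; the
levels of the library give, on compact sets, at most `C T ^ ε` exceptional points of height `T`, for every `ε > 0`, and so a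
limsup set of dimension `0` (`Pool.Agent.X39.Near`); all exponents are treated at the same time.
-/

set_option autoImplicit false

open MvPolynomial NumberField

namespace Pool.Agent.Results.MP_0c330e_nt.ApproximationsOfAllNumbers

open Pool.Agent.X39.Near (Size Dep)

/-- the numbers `e ^ (γ_1 t)`, …, `e ^ (γ_m t)` -/
noncomputable def exps {m : ℕ} (γ : Fin m → ℂ) (t : ℂ) (k : Fin m) : ℂ := Complex.exp (γ k * t)

/-- the numbers `log α`, `α ^ γ_1`, …, `α ^ γ_m` for `log α = ℓ` -/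
noncomputable def powers {m : ℕ} (γ : Fin m → ℂ) (ℓ : ℂ) : Option (Fin m) → ℂ
  | none => ℓ
  | some k => Complex.exp (γ k * ℓ)

/-- There is no relation between the numbers `v`: (1) in the sense of `Dep`, (2) for integral polynomials. -/
def NoRelation {J : Type} {g : ℕ} (v : J → ℂ) (ξ : Fin g → ℂ) (F : Type) [Field F] [NumberField F] (ι : F →+* ℂ)
    (d A : ℕ) (B T : ℝ) : Prop :=
  ¬ Dep v ξ F ι d A B T ∧
  ∀ P : MvPolynomial J ℤ, P ≠ 0 → (∀ j, P.degreeOf j ≤ d) →
    (∀ e, |((P.coeff e : ℤ) : ℝ)| ≤ T ^ A) → T ^ (-B) < ‖aeval v P‖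

theorem no_of {J : Type} {g : ℕ} {v : J → ℂ} {ξ : Fin g → ℂ} {F : Type} [Field F] [NumberField F] {ι : F →+* ℂ}
    {d A : ℕ} {B T : ℝ} (h4 : ¬ Dep v ξ F ι d A B T) (hT : 1 ≤ T) : NoRelation v ξ F ι d A B T :=
  ⟨h4, fun P hP hPd hPA => Pool.Agent.X39.Near.int_of_not_dep h4 (lt_of_lt_of_le one_pos hT) P hP hPd fun e => by
      exact_mod_cast hPA e⟩

/-- **Theorem.** Let `Γ` be a countable set of complex numbers and `ξ_1, …, ξ_g` complex numbers. There is a set `E` of
complex numbers of Hausdorff dimension `0` such that for all `x` outside `E`: (1) for all `γ_1, …, γ_m ∈ Γ`, linearly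
independent over `ℚ`, all number fields `F` with an embedding `ι` in `ℂ`, all `d`, `A` and `ω > 0` there are `B`, `T₁` such
that for all `T ≥ T₁` and all `t ∈ F`, quotients of integers with conjugates at most `T`, with `|ι t - x| ≤ T ^ (-ω)`, there is
no relation between the numbers `e ^ (γ_k ι t)`; (2) for all `γ_1, …, γ_m ∈ Γ` such that `1, γ_1, …, γ_m` are linearly
independent over `ℚ` and all `l₀` with `exp l₀ = x` the same holds for the numbers `log α = ℓ`, `α ^ γ_k = exp (γ_k ℓ)`, for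
all such `α` close to `x` and the logarithm `ℓ` of `ι α` with `|ℓ - l₀| < 1`. -/
theorem result {g : ℕ} (Γ : Set ℂ) (hΓ : Γ.Countable) (ξ : Fin g → ℂ) :
    ∃ E : Set ℂ, dimH E = 0 ∧ ∀ x : ℂ, x ∉ E →
      (∀ (m : ℕ) (γ : Fin m → ℂ), (∀ k, γ k ∈ Γ) → (∀ c : Fin m → ℤ, ∑ k, (c k : ℂ) * γ k = 0 → c = 0) →
        ∀ (F : Type) [Field F] [NumberField F] (ι : F →+* ℂ) (d A : ℕ) (ω : ℝ), 0 < ω → ∃ B T₁ : ℝ, ∀ T : ℝ, T₁ ≤ T →
          ∀ t : F, Size F T t → ‖ι t - x‖ ≤ T ^ (-ω) → NoRelation (exps γ (ι t)) ξ F ι d A B T) ∧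
      ∀ (m : ℕ) (γ : Fin m → ℂ), (∀ k, γ k ∈ Γ) →
        (∀ (c₀ : ℤ) (c : Fin m → ℤ), (c₀ : ℂ) + ∑ k, (c k : ℂ) * γ k = 0 → c₀ = 0 ∧ c = 0) →
        ∀ l₀ : ℂ, Complex.exp l₀ = x →
        ∀ (F : Type) [Field F] [NumberField F] (ι : F →+* ℂ) (d A : ℕ) (ω : ℝ), 0 < ω → ∃ B T₁ : ℝ, ∀ T : ℝ, T₁ ≤ T →
          ∀ α : F, Size F T α → ‖ι α - x‖ ≤ T ^ (-ω) → ∀ ℓ : ℂ, Complex.exp ℓ = ι α → ‖ℓ - l₀‖ < 1 →
            NoRelation (powers γ ℓ) ξ F ι d A B T := by
  classical
  obtain ⟨E', h1', h2'⟩ := Pool.Agent.X39.Near.pw_near Γ hΓ ξ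
  have : Countable Γ := hΓ.to_subtype
  have H : ∀ i : Σ m : ℕ, Fin m → Γ, ∃ E : Set ℂ, dimH E = 0 ∧
      ((∀ c : Fin i.1 → ℤ, ∑ k, (c k : ℂ) * (i.2 k : ℂ) = 0 → c = 0) → ∀ x : ℂ, x ∉ E →
      ∀ (F : Type) [Field F] [NumberField F] (ι : F →+* ℂ) (d A : ℕ) (ω : ℝ), 0 < ω → ∃ B T₁ : ℝ, ∀ T : ℝ, T₁ ≤ T →
        ∀ t : F, Size F T t → ‖ι t - x‖ ≤ T ^ (-ω) → ¬ Dep (exps (fun k => (i.2 k : ℂ)) (ι t)) ξ F ι d A B T) := by
    intro i
    by_cases hi : ∀ c : Fin i.1 → ℤ, ∑ k, (c k : ℂ) * (i.2 k : ℂ) = 0 → c = 0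
    · obtain ⟨E, h1, h2, -⟩ := Pool.Agent.X39.Near.near_dep Set.univ isOpen_univ
        (fun k z => Complex.exp ((i.2 k : ℂ) * z)) (fun k z _ => (analyticAt_const.mul analyticAt_id).cexp)
        (fun t _ => Pool.Agent.X39.Near.loc_lin hi t) ξ
      exact ⟨E, h1, fun _ x hx => h2 x (Set.mem_univ _) hx⟩
    · exact ⟨∅, dimH_empty, fun h => absurd h hi⟩
  choose E hE0 hE using H
  refine ⟨(⋃ i, E i) ∪ E', by rw [dimH_union, dimH_iUnion, h1']; simp [hE0], fun x hx => ⟨?_, ?_⟩⟩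
  · intro m γ hγ hi F _ _ ι d A ω hω
    obtain ⟨B, T₁, h2⟩ := hE ⟨m, fun k => ⟨γ k, hγ k⟩⟩ hi x (fun h => hx (Or.inl (Set.mem_iUnion.2 ⟨_, h⟩))) F ι d A ω hω
    exact ⟨B, max T₁ 1, fun T hT t ht htx => no_of (h2 T ((le_max_left _ _).trans hT) t ht htx)
      ((le_max_right _ _).trans hT)⟩
  · intro m γ hγ hi l₀ hl F _ _ ι d A ω hω
    obtain ⟨B, T₁, h3⟩ := h2' x (fun h => hx (Or.inr h)) l₀ hl m γ hγ hi F ι d A ω hω
    refine ⟨B, max T₁ 1, fun T hT α hα hαx ℓ hℓ hℓl => no_of ?_ ((le_max_right _ _).trans hT)⟩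
    have hv : powers γ ℓ = fun j => Pool.Agent.X39.Near.pw γ j ℓ := by
      funext j
      rcases j with _ | k <;> rfl
    rw [hv]
    exact h3 T ((le_max_left _ _).trans hT) α hα hαx ℓ hℓ hℓl

end Pool.Agent.Results.MP_0c330e_nt.ApproximationsOfAllNumbers
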